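import Pool.Agent.helper91.RB.Spec5

/-! # Row PSI of project RB: characters and inflation -/

set_option autoImplicit false

namespace Pool.Agent.RB

open NumberField IsDedekindDomain Module
open scoped nonZeroDivisors Real Classical IsMulCommutative

theorem PSI_gen {G Q : Type} [Group G] [Finite G] [Group Q] [Finite Q] (f : G →* Q)
    (hf : Function.Surjective f) (c : G) (g : (G →* ℂˣ) → ℂ) :
    ∏ ψ ∈ odd (f c), g (ψ.comp f) = ∏ ψ ∈ Psi f.ker c, g ψ := by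
  refine Finset.prod_bij (fun ψ _ => ψ.comp f) ?_ ?_ ?_ ?_
  · intro ψ hψ
    have h1 : ψ (f c) = -1 := (Finset.mem_filter.1 hψ).2
    refine Finset.mem_filter.2 ⟨Finset.mem_univ _, ?_, h1⟩
    intro b hb
    have hb' : f b = 1 := hb
    rw [MonoidHom.comp_apply, hb', map_one]
  · intro ψ _ ψ' _ h
    exact (MonoidHom.cancel_right hf).1 h
  · intro φ hφ
    obtain ⟨-, h1, h2⟩ := Finset.mem_filter.1 hφ
    have hker : f.ker ≤ φ.ker := fun b hb => h1 b hb
    have hcomp : (f.liftOfSurjective hf ⟨φ, hker⟩).comp f = φ :=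
      MonoidHom.liftOfRightInverse_comp f _ _ ⟨φ, hker⟩
    refine ⟨f.liftOfSurjective hf ⟨φ, hker⟩, ?_, hcomp⟩
    refine Finset.mem_filter.2 ⟨Finset.mem_univ _, ?_⟩
    have := DFunLike.congr_fun hcomp c
    rw [MonoidHom.comp_apply] at this
    rw [this, h2]
  · intro ψ _
    rfl

theorem PSI_inv {G : Type} [Group G] [Finite G] (B : Subgroup G) (c : G) (ψ : G →* ℂˣ)
    (h : ψ ∈ Psi B c) : ψ⁻¹ ∈ Psi B c := by
  obtain ⟨-, h1, h2⟩ := Finset.mem_filter.1 h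
  refine Finset.mem_filter.2 ⟨Finset.mem_univ _, ?_, ?_⟩
  · intro b hb
    rw [MonoidHom.inv_apply, h1 b hb, inv_one]
  · rw [MonoidHom.inv_apply, h2, inv_neg, inv_one]

theorem PSI : PSI_stmt := by
  intro F K H _ _ _ _ _ _ _ _ _ _ _ _ c g
  refine ⟨PSI_gen _ (AlgEquiv.restrictNormalHom_surjective H) c g, fun B => ?_⟩
  refine Finset.prod_bij (fun ψ _ => ψ⁻¹) (fun ψ hψ => PSI_inv B c ψ hψ)
    (fun ψ _ ψ' _ h => inv_injective h) (fun ψ hψ => ⟨ψ⁻¹, PSI_inv B c ψ hψ, inv_inv ψ⟩)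
    (fun ψ _ => rfl)

end Pool.Agent.RB
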